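import Pool.Agent.W862.RC.Cross

set_option autoImplicit false

/-!
# Graphs in which two vertex-deleted subgraphs overlap only through automorphisms

`T(G)` is the set of nonempty cliques of `G` ordered by inclusion.  If `G` has two distinct
vertices `u`, `v` such that every isomorphism of `G - {u, x}` onto `G - {v, y}` (with the right
degrees of `x` and `y`) becomes an automorphism of `G` when extended by `u ↦ y`, `x ↦ v`, then
`T(G)` is reconstructible.
-/

namespace Pool.Agent.Results.MP_552896_co.CrossExtension

/-- The truncated clique lattices of `G` and `H` have the same deck of maximal filter deleted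
subsets: some bijection `f` of the vertex sets is such that, for every vertex `v`, the nonempty
cliques of `G` avoiding `v` and the nonempty cliques of `H` avoiding `f v`, both ordered by
inclusion, are isomorphic ordered sets. -/
def SameDeck {V W : Type} (G : SimpleGraph V) (H : SimpleGraph W) : Prop :=
  ∃ f : V ≃ W, ∀ v : V,
    Nonempty ({s : Finset V // s.Nonempty ∧ G.IsClique (s : Set V) ∧ v ∉ s} ≃o
      {t : Finset W // t.Nonempty ∧ H.IsClique (t : Set W) ∧ f v ∉ t})

/-- `T(G)` is reconstructible from its deck: every truncated clique lattice `T(H)` of a finite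
graph `H` with the same deck is isomorphic to `T(G)`. -/
def Reconstructible {V : Type} (G : SimpleGraph V) : Prop :=
  ∀ (W : Type) [Fintype W] (H : SimpleGraph W), SameDeck G H →
    Nonempty ({s : Finset V // s.Nonempty ∧ G.IsClique (s : Set V)} ≃o
      {t : Finset W // t.Nonempty ∧ H.IsClique (t : Set W)})

/-- For all `x ≠ u` and `y ≠ v` such that `deg(v)` exceeds the degree of `x` in `G - u`, and
`deg(u)` exceeds the degree of `y` in `G - v`, by the same number `ε`, which is `0` or `1`: every
isomorphism `φ` of `G - {u, x}` onto `G - {v, y}`, extended by `u ↦ y` and `x ↦ v`, is an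
automorphism of `G`. -/
def CrossExtends {V : Type} (G : SimpleGraph V) (u v : V) : Prop :=
  ∀ x y : V, x ≠ u → y ≠ v →
    (∃ ε : ℕ, ε ≤ 1 ∧ ({z | z ≠ u ∧ G.Adj x z} : Set V).ncard + ε = (G.neighborSet v).ncard ∧
      ({z | z ≠ v ∧ G.Adj y z} : Set V).ncard + ε = (G.neighborSet u).ncard) →
    ∀ φ : G.induce {z | z ≠ u ∧ z ≠ x} ≃g G.induce {z | z ≠ v ∧ z ≠ y},
      ∃ α : G ≃g G, α u = y ∧ α x = v ∧ ∀ z : {z | z ≠ u ∧ z ≠ x}, α z = φ z

theorem result : ∀ (V : Type) [Fintype V] (G : SimpleGraph V), 3 ≤ Fintype.card V →
    (∃ u v : V, u ≠ v ∧ CrossExtends G u v) → Reconstructible G :=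
  fun _ _ G hn ⟨u, v, huv, hc⟩ => Pool.Agent.W862.RC.cross G hn u v huv hc

end Pool.Agent.Results.MP_552896_co.CrossExtension
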